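import Pool.Agent.Helper6.NS.Defs

/-! KU row M5: composition through simple objects. -/

namespace Pool.Agent.Helper20.KU

open CategoryTheory CategoryTheory.Limits CategoryTheory.Pretriangulated Module
open CategoryTheory.Triangulated
open Pool.Agent.Helper6.KE Pool.Agent.Helper6.NS

universe v u w

variable {C : Type u} [Category.{v} C] [Preadditive C] [HasZeroObject C] [HasShift C ℤ]
  [∀ n : ℤ, (shiftFunctor C n).Additive] [Pretriangulated C]

/-- shift of a simple object (local copy of M1c) -/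
theorem smp_shift_aux {t : TStructure C} {T : C} {p : ℤ} (h : Smp t T p) (a q : ℤ)
    (hq : a + q = p) : Smp t (T⟦a⟧) q := by
  have hle := h.le
  have hge := h.ge
  refine ⟨t.isLE_shift T p a q hq, t.isGE_shift T p a q hq, ?_⟩
  intro X F i f δ hT hX hf
  have hS := Triangle.shift_distinguished _ hT (-a)
  let e : T⟦a⟧⟦-a⟧ ≅ T := (shiftEquiv C a).unitIso.symm.app T
  have hT' : Triangle.mk ((-a).negOnePow • i⟦-a⟧') (((-a).negOnePow • f⟦-a⟧') ≫ e.hom)
      (e.inv ≫ ((-a).negOnePow • δ⟦-a⟧' ≫ (shiftFunctorComm C 1 (-a)).hom.app F)) ∈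
      distTriang C := by
    refine isomorphic_distinguished _ hS _ ?_
    refine Triangle.isoMk _ _ (Iso.refl _) (Iso.refl _) e.symm ?_ ?_ ?_
    · change ((-a).negOnePow • i⟦-a⟧') ≫ 𝟙 _ = 𝟙 _ ≫ ((-a).negOnePow • i⟦-a⟧')
      rw [Category.comp_id, Category.id_comp]
    · change (((-a).negOnePow • f⟦-a⟧') ≫ e.hom) ≫ e.inv = 𝟙 _ ≫ ((-a).negOnePow • f⟦-a⟧')
      rw [Category.assoc, Iso.hom_inv_id, Category.comp_id, Category.id_comp]
    · change (e.inv ≫ _) ≫ (𝟙 (F⟦-a⟧))⟦(1 : ℤ)⟧' = e.inv ≫ _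
      rw [CategoryTheory.Functor.map_id, Category.comp_id]
      rfl
  have hX' : t.IsLE (X⟦-a⟧) p := t.isLE_shift X q (-a) p (by omega)
  have hne : ((-a).negOnePow • f⟦-a⟧') ≫ e.hom ≠ 0 := by
    intro h0
    have h1 : (-a).negOnePow • f⟦-a⟧' = 0 := by
      rw [← cancel_mono e.hom, h0, zero_comp]
    have h2 : f⟦-a⟧' = 0 := by
      have h3 := congrArg (fun z => (-a).negOnePow • z) h1
      simpa [smul_smul, ← Int.negOnePow_add] using h3
    exact hf ((shiftFunctor C (-a)).map_injective (by rw [h2, Functor.map_zero]))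
  have hF : t.IsLE (F⟦-a⟧) p := h.epi _ _ _ hT' hX' hne
  exact t.isLE_of_shift F q (-a) p (by omega)

variable {K : Type w} [Field K] [Linear K C] 

/-- composition through simple objects is injective -/
theorem comp_inj (t : TStructure C) {ι α : Type} [DecidableEq α] (T : ι → C) (n : ℤ)
    (hs : ∀ i, Smp t (T i) n) (hne : ∀ i, (𝟙 (T i) : T i ⟶ T i) ≠ 0)
    (Y : C) (hY : t.IsGE Y n) (i : α → ι) (s : Finset α) :
    ∀ (X : C), t.IsLE X n → ∀ f : (∀ a, X ⟶ T (i a)),
      (∀ (j : ι) (h : ∀ a, T (i a) ⟶ T j), ∑ a ∈ s, f a ≫ h a = 0 → ∀ a ∈ s, h a = 0) →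
      ∀ g : (∀ a, T (i a) ⟶ Y), ∑ a ∈ s, f a ≫ g a = 0 → ∀ a ∈ s, g a = 0 := by
  induction s using Finset.induction_on with
  | empty => intro X hX f hf g hg a ha; exact absurd ha (Finset.notMem_empty a)
  | insert b s hb ih =>
    intro X hX f hf g hg
    have hfb : f b ≠ 0 := by
      intro h0
      have h1 := hf (i b) (Function.update 0 b (𝟙 (T (i b)))) (by
        apply Finset.sum_eq_zero
        intro a _
        by_cases hab : a = b
        · subst hab
          rw [h0, zero_comp]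
        · rw [Function.update_of_ne hab]
          simp) b (Finset.mem_insert_self b s)
      rw [Function.update_self] at h1
      exact hne _ h1
    obtain ⟨F, u, δ, hT⟩ := distinguished_cocone_triangle₁ (f b)
    have hF : t.IsLE F n := (hs (i b)).epi u (f b) δ hT hX hfb
    have huf : u ≫ f b = 0 := comp_distTriang_mor_zero₁₂ _ hT
    have hrest : ∀ a ∈ s, g a = 0 := by
      refine ih F hF (fun a => u ≫ f a) ?_ g ?_
      · intro j h hh
        have h1 : u ≫ ∑ a ∈ s, f a ≫ h a = 0 := by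
          rw [Preadditive.comp_sum, ← hh]
          exact Finset.sum_congr rfl fun a _ => by rw [Category.assoc]
        obtain ⟨r, hr⟩ := Triangle.yoneda_exact₂ _ hT (∑ a ∈ s, f a ≫ h a) h1
        change T (i b) ⟶ T j at r
        have hr' : ∑ a ∈ s, f a ≫ h a = f b ≫ r := hr
        intro a ha
        have hab : a ≠ b := fun e => hb (e ▸ ha)
        have h2 := hf j (Function.update h b (-r)) (by
          rw [Finset.sum_insert hb, Function.update_self, Preadditive.comp_neg, ← hr',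
            neg_add_eq_zero]
          refine Finset.sum_congr rfl fun c hc => ?_
          have hcb : c ≠ b := fun e => hb (e ▸ hc)
          rw [Function.update_of_ne hcb]) a (Finset.mem_insert_of_mem ha)
        rwa [Function.update_of_ne hab] at h2
      · have h1 : u ≫ ∑ a ∈ insert b s, f a ≫ g a = 0 := by rw [hg, comp_zero]
        rw [Finset.sum_insert hb, Preadditive.comp_add, ← Category.assoc, huf, zero_comp,
          zero_add, Preadditive.comp_sum] at h1
        rw [← h1]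
        exact Finset.sum_congr rfl fun a _ => by rw [Category.assoc]
    intro a ha
    rcases Finset.mem_insert.1 ha with rfl | ha
    · rw [Finset.sum_insert hb, Finset.sum_eq_zero (fun c hc => by rw [hrest c hc, comp_zero]),
        add_zero] at hg
      obtain ⟨r, hr⟩ := Triangle.yoneda_exact₂ _ (rot_of_distTriang _ hT) (g a) hg
      change F⟦(1 : ℤ)⟧ ⟶ Y at r
      have hF1 : t.IsLE (F⟦(1 : ℤ)⟧) (n - 1) := t.isLE_shift F n 1 (n - 1) (by omega)
      have hr0 : r = 0 := t.zero r (n - 1) n (by omega)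
      rw [hr, hr0]
      exact comp_zero
    · exact hrest a ha

/-- M5a without the vanishing of `Ext^1`. -/
theorem simples_bound_abs' (fd : ∀ X Y : C, FiniteDimensional K (X ⟶ Y)) {ι : Type} [Fintype ι]
    [DecidableEq ι] (t : TStructure C) (T : ι → C) (n : ℤ) (hs : ∀ i, Smp t (T i) n)
    (h1 : ∀ i, finrank K (T i ⟶ T i) = 1) (h0 : ∀ i j, i ≠ j → ∀ f : T i ⟶ T j, f = 0)
    (X Y : C) (hX : t.IsLE X n) (hY : t.IsGE Y n) :
    ∑ i, finrank K (X ⟶ T i) * finrank K (T i ⟶ Y) ≤ finrank K (X ⟶ Y) := by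
  classical
  have hid : ∀ i, (𝟙 (T i) : T i ⟶ T i) ≠ 0 := by
    intro i hi
    have : ∀ f : T i ⟶ T i, f = 0 := fun f => by rw [← Category.comp_id f, hi, comp_zero]
    have hsub : Subsingleton (T i ⟶ T i) := ⟨fun a b => by rw [this a, this b]⟩
    have h2 := h1 i
    rw [finrank_zero_of_subsingleton] at h2
    exact absurd h2 (by norm_num)
  let α := Σ i : ι, Fin (finrank K (X ⟶ T i))
  let B : ∀ i, Basis (Fin (finrank K (X ⟶ T i))) K (X ⟶ T i) := fun i => finBasis K (X ⟶ T i)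
  let f : ∀ a : α, X ⟶ T a.1 := fun a => B a.1 a.2
  have hind : ∀ (j : ι) (h : ∀ a : α, T a.1 ⟶ T j), ∑ a ∈ Finset.univ, f a ≫ h a = 0 →
      ∀ a ∈ Finset.univ, h a = 0 := by
    intro j h hh
    have hc : ∀ b : Fin (finrank K (X ⟶ T j)), ∃ c : K, c • 𝟙 (T j) = h ⟨j, b⟩ :=
      fun b => finrank_one_span (h1 j) (hid j) (h ⟨j, b⟩)
    choose c hc using hc
    have hh2 : ∑ b, c b • B j b = 0 := by
      rw [Fintype.sum_sigma, Finset.sum_eq_single j] at hh
      · rw [← hh]
        refine Finset.sum_congr rfl fun b _ => ?_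
        rw [← hc b, Linear.comp_smul, Category.comp_id]
      · intro i _ hij
        apply Finset.sum_eq_zero
        intro b _
        rw [h0 i j hij (h ⟨i, b⟩), comp_zero]
      · intro hj
        exact absurd (Finset.mem_univ j) hj
    have hc0 : ∀ b, c b = 0 := Fintype.linearIndependent_iff.1 (B j).linearIndependent c hh2
    rintro ⟨i, b⟩ _
    by_cases hij : i = j
    · subst hij
      rw [← hc b, hc0 b, zero_smul]
    · exact h0 i j hij _
  let Φ : (∀ a : α, (T a.1 ⟶ Y)) →ₗ[K] (X ⟶ Y) :=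
    ∑ a : α, (Linear.leftComp K Y (f a)) ∘ₗ (LinearMap.proj a)
  have hΦ : ∀ g, Φ g = ∑ a : α, f a ≫ g a := by
    intro g
    simp only [Φ, LinearMap.sum_apply, LinearMap.comp_apply, LinearMap.proj_apply,
      Linear.leftComp_apply]
  have hinj : Function.Injective Φ := by
    rw [← LinearMap.ker_eq_bot, LinearMap.ker_eq_bot']
    intro g hg
    rw [hΦ] at hg
    funext a
    exact comp_inj t T n hs hid Y hY (fun a : α => a.1) Finset.univ X hX f hind g hg a
      (Finset.mem_univ a)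
  have h2 := LinearMap.finrank_le_finrank_of_injective hinj
  rw [Module.finrank_pi_fintype, Fintype.sum_sigma] at h2
  refine le_trans (le_of_eq ?_) h2
  refine Finset.sum_congr rfl fun i _ => ?_
  change _ = ∑ _y : Fin (finrank K (X ⟶ T i)), finrank K (T i ⟶ Y)
  rw [Finset.sum_const, Finset.card_univ, Fintype.card_fin, smul_eq_mul]

/-- M5a: composition through simple objects (abstract). `T i` pairwise orthogonal simple objects
placed in degree `n`. -/
theorem simples_bound_abs (fd : ∀ X Y : C, FiniteDimensional K (X ⟶ Y)) {ι : Type} [Fintype ι]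
    [DecidableEq ι] (t : TStructure C) (T : ι → C) (n : ℤ) (hs : ∀ i, Smp t (T i) n)
    (h1 : ∀ i, finrank K (T i ⟶ T i) = 1) (h0 : ∀ i j, i ≠ j → ∀ f : T i ⟶ T j, f = 0)
    (_he : ∀ i j, HV (T i) (T j) 1) (X Y : C) (hX : t.IsLE X n) (hY : t.IsGE Y n) :
    ∑ i, finrank K (X ⟶ T i) * finrank K (T i ⟶ Y) ≤ finrank K (X ⟶ Y) :=
  simples_bound_abs' fd t T n hs h1 h0 X Y hX hY

variable [∀ n : ℤ, (shiftFunctor C n).Linear K]

lemma finrank_shift' (X Y : C) (a b n : ℤ) (h : n + a = b) :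
    finrank K (X⟦a⟧ ⟶ Y⟦b⟧) = finrank K (X ⟶ Y⟦n⟧) := by
  have e1 : (X ⟶ Y⟦n⟧) ≃ₗ[K] (X⟦a⟧ ⟶ Y⟦n⟧⟦a⟧) :=
    LinearEquiv.ofBijective ((shiftFunctor C a).mapLinearMap K)
      ⟨(shiftFunctor C a).map_injective, (shiftFunctor C a).map_surjective⟩
  have e2 : (X⟦a⟧ ⟶ Y⟦n⟧⟦a⟧) ≃ₗ[K] (X⟦a⟧ ⟶ Y⟦b⟧) :=
    Linear.homCongr K (Iso.refl _) ((shiftFunctorAdd' C n a b h).symm.app Y)
  exact (e1.trans e2).finrank_eq.symm

lemma finrank_shift0 (X Y : C) (a : ℤ) :
    finrank K (X⟦a⟧ ⟶ Y⟦a⟧) = finrank K (X ⟶ Y) := by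
  have e1 : (X ⟶ Y) ≃ₗ[K] (X⟦a⟧ ⟶ Y⟦a⟧) :=
    LinearEquiv.ofBijective ((shiftFunctor C a).mapLinearMap K)
      ⟨(shiftFunctor C a).map_injective, (shiftFunctor C a).map_surjective⟩
  exact e1.finrank_eq.symm

omit [∀ n : ℤ, (shiftFunctor C n).Linear K] in
/-- Serre duality in dimensions -/
lemma serre_dim (D : EnriquesType K C) (X Y : C) :
    finrank K (X ⟶ Y) = finrank K (Y ⟶ (D.W.obj X)⟦(2 : ℤ)⟧) := by
  have i1 := D.homFinite X Y
  have i2 := D.homFinite Y ((D.W.obj X)⟦(2 : ℤ)⟧)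
  let φ : (X ⟶ Y) →ₗ[K] (Y ⟶ (D.W.obj X)⟦(2 : ℤ)⟧) →ₗ[K] K :=
    LinearMap.mk₂ K (fun (f : X ⟶ Y) (g : Y ⟶ (D.W.obj X)⟦(2 : ℤ)⟧) => D.tr X (f ≫ g))
      (fun f f' g => by simp) (fun c f g => by simp)
      (fun f g g' => by simp) (fun c f g => by simp)
  have h1 : Function.Injective φ := by
    rw [← LinearMap.ker_eq_bot, LinearMap.ker_eq_bot']
    intro f hf
    by_contra hne
    obtain ⟨g, hg⟩ := D.left f hne
    exact hg (LinearMap.congr_fun hf g)
  have h2 : Function.Injective φ.flip := by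
    rw [← LinearMap.ker_eq_bot, LinearMap.ker_eq_bot']
    intro g hg
    by_contra hne
    obtain ⟨f, hf⟩ := D.right g hne
    exact hf (LinearMap.congr_fun hg f)
  apply le_antisymm
  · have := LinearMap.finrank_le_finrank_of_injective h1
    rwa [Subspace.dual_finrank_eq] at this
  · have := LinearMap.finrank_le_finrank_of_injective h2
    rwa [Subspace.dual_finrank_eq] at this

lemma finrank_WW (D : EnriquesType K C) (X : C) :
    finrank K (D.W.obj X ⟶ D.W.obj X) = finrank K (X ⟶ X) := by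
  rw [serre_dim D X X, serre_dim D X ((D.W.obj X)⟦(2 : ℤ)⟧), finrank_shift0]

/-- M5b -/
theorem simples_bound (D : EnriquesType K C) (L : Fin 10 → C) (hL : IsExcOrth K L)
    (t : TStructure C) (p : Fin 10 → ℤ) (h : Good D L t p) (n j : ℤ) (X Y : C)
    (hX : t.IsLE X n) (hY : t.IsGE Y (n + j)) :
    ∑ k, (hd K X (L k) (p k - n) * hd K (L k) Y (n + j - p k) +
      hd K X (D.W.obj (L k)) (p k - n) * hd K (D.W.obj (L k)) Y (n + j - p k)) ≤
    hd K X Y j := by
  classical
  let T : Fin 10 ⊕ Fin 10 → C :=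
    Sum.elim (fun k => (L k)⟦p k - n⟧) (fun k => (D.W.obj (L k))⟦p k - n⟧)
  have hYj : t.IsGE (Y⟦j⟧) n := t.isGE_shift Y (n + j) j n (by omega)
  have hs : ∀ i, Smp t (T i) n := by
    rintro (k | k)
    · exact smp_shift_aux (h.smp k) (p k - n) n (by omega)
    · exact smp_shift_aux (h.smpW k) (p k - n) n (by omega)
  have h1 : ∀ i, finrank K (T i ⟶ T i) = 1 := by
    rintro (k | k)
    · exact (finrank_shift0 (L k) (L k) (p k - n)).trans (hL.one k)
    · exact (finrank_shift0 (D.W.obj (L k)) (D.W.obj (L k)) (p k - n)).trans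
        ((finrank_WW D (L k)).trans (hL.one k))
  have hLL : ∀ k l, k ≠ l → ∀ m, HV (L k) (L l) m := fun k l hkl m => hL.orth k l hkl m
  have hWW : ∀ k l, k ≠ l → ∀ m, HV (D.W.obj (L k)) (D.W.obj (L l)) m := fun k l hkl m =>
    hv_W D m (hv_W D (2 - m) (by
      have := hLL k l hkl m
      rwa [show (2 : ℤ) - (2 - m) = m by ring]))
  have hLW : ∀ k l m, (k ≠ l ∨ m ≠ 2) → HV (L k) (D.W.obj (L l)) m := by
    intro k l m hm
    apply hv_W D m
    by_cases hkl : k = l
    · subst hkl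
      exact hL.exc k (2 - m) (by
        rcases hm with hm | hm
        · exact absurd rfl hm
        · omega)
    · exact hLL l k (Ne.symm hkl) _
  have hWL : ∀ k l m, (k ≠ l ∨ m ≠ 2) → HV (D.W.obj (L k)) (L l) m := by
    intro k l m hm
    have h3 : HV (D.W.obj (L k)) (D.W.obj (D.W.obj (L l))) m := by
      apply hv_W D m
      apply hv_W D (2 - m)
      rw [show (2 : ℤ) - (2 - m) = m by ring]
      exact hLW k l m hm
    exact h3.of_iso_right (D.sq.app (L l)).symm
  have h0 : ∀ i i', i ≠ i' → ∀ f : T i ⟶ T i', f = 0 := by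
    rintro (k | k) (l | l) hkl f
    · exact (hLL k l (fun h => hkl (by rw [h])) (p l - n - (p k - n))).shift_shift
        (p k - n) (p l - n) (by ring) f
    · exact (hLW k l (p l - n - (p k - n)) (by
        by_cases hk : k = l
        · right; subst hk; omega
        · exact Or.inl hk)).shift_shift (p k - n) (p l - n) (by ring) f
    · exact (hWL k l (p l - n - (p k - n)) (by
        by_cases hk : k = l
        · right; subst hk; omega
        · exact Or.inl hk)).shift_shift (p k - n) (p l - n) (by ring) f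
    · exact (hWW k l (fun h => hkl (by rw [h])) (p l - n - (p k - n))).shift_shift
        (p k - n) (p l - n) (by ring) f
  have key := simples_bound_abs' D.homFinite t T n hs h1 h0 X (Y⟦j⟧) hX hYj
  rw [Fintype.sum_sum_type, ← Finset.sum_add_distrib] at key
  refine le_trans (le_of_eq ?_) key
  refine Finset.sum_congr rfl fun k _ => ?_
  have e1 : finrank K ((L k)⟦p k - n⟧ ⟶ Y⟦j⟧) = hd K (L k) Y (n + j - p k) :=
    finrank_shift' (L k) Y (p k - n) j (n + j - p k) (by ring)
  have e2 : finrank K ((D.W.obj (L k))⟦p k - n⟧ ⟶ Y⟦j⟧) =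
      hd K (D.W.obj (L k)) Y (n + j - p k) :=
    finrank_shift' (D.W.obj (L k)) Y (p k - n) j (n + j - p k) (by ring)
  rw [← e1, ← e2]
  rfl

end Pool.Agent.Helper20.KU
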