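import Pool.Agent.Helper20.KU.G6core
import Pool.Agent.Helper5.NS.G3

/-! KU row G6: the tilt at the common slope is a good t-structure. -/

namespace Pool.Agent.Helper20.KU

open CategoryTheory CategoryTheory.Limits CategoryTheory.Pretriangulated Module
open CategoryTheory.Triangulated
open Pool.Agent.Helper6.KE Pool.Agent.Helper6.NS

universe v₁ u₁ v u w

variable {C : Type u} [Category.{v} C] [Preadditive C] [HasZeroObject C] [HasShift C ℤ]
  [∀ n : ℤ, (shiftFunctor C n).Additive] [Pretriangulated C]
  {K : Type w} [Field K] [Linear K C] [∀ n : ℤ, (shiftFunctor C n).Linear K]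
  {A : Type u₁} [Category.{v₁} A] [Abelian A]

/-- G6 -/
theorem good_of_unnodal [IsTriangulated C] (X : Unnodal (C := C) K A) (D : EnriquesType K C)
    (hD : D.W = X.D.W) (L : Fin 10 → A) (hL : ∀ k, X.IsLine (L k))
    (hexc : IsExcOrth K (fun k => X.S.ι.obj (L k))) :
    ∃ t : TStructure C, Good D (fun k => X.S.ι.obj (L k)) t (fun _ => 1) :=
  good_of_unnodal_aux X (fun h hh m t' ht' L hL hm => tilt_simple X h hh m t' ht' L hL hm)
    D hD L hL hexc

end Pool.Agent.Helper20.KU
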