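import Pool.Agent.Helper73.KU.G1
import Pool.Agent.Helper73.KU.G4b
import Pool.Agent.Helper5.NS.G2
import Pool.Agent.Helper17.KU.G3b
import Pool.Agent.Helper82.KU.G4a

/-! KU row G6: the tilt at the common slope is a good t-structure. -/

namespace Pool.Agent.Helper20.KU

open CategoryTheory CategoryTheory.Limits CategoryTheory.Pretriangulated Module
open CategoryTheory.Triangulated
open Pool.Agent.Helper6.KE Pool.Agent.Helper6.NS
open scoped ZeroObject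
open Pool.Agent.Helper73.KU (tilt_gen sq_diff)
open Pool.Agent.Helper82.KU (lattice)

universe v₁ u₁ v u w

variable {C : Type u} [Category.{v} C] [Preadditive C] [HasZeroObject C] [HasShift C ℤ]
  [∀ n : ℤ, (shiftFunctor C n).Additive] [Pretriangulated C]

/-- simple objects are invariant under isomorphism -/
theorem smp_iso {t : TStructure C} {T T' : C} {p : ℤ} (h : Smp t T p) (e : T ≅ T') :
    Smp t T' p := by
  have hle := h.le
  have hge := h.ge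
  refine ⟨t.isLE_of_iso e p, t.isGE_of_iso e p, ?_⟩
  intro X F i f δ hT hX hf
  refine h.epi i (f ≫ e.inv) (e.hom ≫ δ) ?_ hX ?_
  · refine isomorphic_distinguished _ hT _
      (Triangle.isoMk _ _ (Iso.refl _) (Iso.refl _) e ?_ ?_ ?_)
    · change i ≫ 𝟙 X = 𝟙 F ≫ i
      rw [Category.comp_id, Category.id_comp]
    · change (f ≫ e.inv) ≫ e.hom = 𝟙 X ≫ f
      rw [Category.assoc, Iso.inv_hom_id, Category.comp_id, Category.id_comp]
    · change (e.hom ≫ δ) ≫ (𝟙 F)⟦(1 : ℤ)⟧' = e.hom ≫ δ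
      rw [CategoryTheory.Functor.map_id, Category.comp_id]
  · intro h0
    apply hf
    rw [← cancel_mono e.inv, h0, zero_comp]

/-- additive functions on triangles are invariant under isomorphism -/
theorem add_iso {G : Type*} [AddCommGroup G] (f : C → G)
    (hf : ∀ T ∈ distTriang C, f T.obj₂ = f T.obj₁ + f T.obj₃) {P Q : C} (e : P ≅ Q) :
    f P = f Q := by
  have h0 : f (0 : C) = 0 := by
    have := hf _ (contractible_distinguished (0 : C))
    change f (0 : C) = f (0 : C) + f (0 : C) at this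
    simpa using this
  have h1 : Triangle.mk e.hom (0 : Q ⟶ (0 : C)) (0 : (0 : C) ⟶ P⟦(1 : ℤ)⟧) ∈ distTriang C := by
    refine isomorphic_distinguished _ (contractible_distinguished P) _
      (Triangle.isoMk _ _ (Iso.refl _) e.symm (Iso.refl _) ?_ ?_ ?_)
    · change e.hom ≫ e.inv = 𝟙 P ≫ 𝟙 P
      simp
    · exact (isZero_zero C).eq_of_tgt _ _
    · exact (isZero_zero C).eq_of_src _ _
  have h2 := hf _ h1
  change f Q = f P + f (0 : C) at h2
  rw [h2, h0, add_zero]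

section tw

variable {A : Type u₁} [Category.{v₁} A] [Abelian A]

/-- the square of the twist on sheaves is the identity -/
noncomputable def twtw {W : C ⥤ C} (sq : W ⋙ W ≅ 𝟭 C) (S : Sheaves A W) :
    S.tw ⋙ S.tw ≅ 𝟭 A :=
  Functor.fullyFaithfulCancelRight S.ι
    (Functor.associator S.tw S.tw S.ι ≪≫ Functor.isoWhiskerLeft S.tw S.twι ≪≫
      (Functor.associator S.tw S.ι W).symm ≪≫ Functor.isoWhiskerRight S.twι W ≪≫
      Functor.associator S.ι W W ≪≫ Functor.isoWhiskerLeft S.ι sq ≪≫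
      Functor.rightUnitor S.ι ≪≫ (Functor.leftUnitor S.ι).symm)

theorem tw_equiv {W : C ⥤ C} (sq : W ⋙ W ≅ 𝟭 C) (S : Sheaves A W) :
    S.tw.IsEquivalence :=
  (CategoryTheory.Equivalence.mk S.tw S.tw (twtw sq S).symm (twtw sq S)).isEquivalence_functor

variable {K : Type w} [Field K] [Linear K C]

lemma rk_tw (X : Unnodal (C := C) K A) (E : A) : X.r (X.S.tw.obj E) = X.r E := by
  unfold Unnodal.r
  rw [← X.N.rk_W (X.S.ι.obj E)]
  exact add_iso X.N.rk X.N.rk_add (X.S.twι.app E)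

lemma c₁_tw (X : Unnodal (C := C) K A) (E : A) :
    X.N.c₁ (X.S.ι.obj (X.S.tw.obj E)) = X.N.c₁ (X.S.ι.obj E) := by
  rw [← X.N.c₁_W (X.S.ι.obj E)]
  exact add_iso X.N.c₁ X.N.c₁_add (X.S.twι.app E)

lemma z_tw (X : Unnodal (C := C) K A) (h : Fin 10 → ℤ) (m : ℤ) (E : A) :
    X.z h m (X.S.tw.obj E) = X.z h m E := by
  have h1 := rk_tw X E
  have h2 := c₁_tw X E
  unfold Unnodal.r at h1
  unfold Unnodal.z
  rw [h1, h2]

lemma freeCl_tw (X : Unnodal (C := C) K A) (h : Fin 10 → ℤ) (m : ℤ) {F : A}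
    (hF : FreeCl X.r (X.z h m) F) : FreeCl X.r (X.z h m) (X.S.tw.obj F) := by
  intro F' f hf hF'
  have := tw_equiv X.D.sq X.S
  have hmono : Mono (X.S.tw.map f) := inferInstance
  have h1 := hF (X.S.tw.obj F') (X.S.tw.map f ≫ (twtw X.D.sq X.S).hom.app F) (mono_comp _ _) (by
    intro hz
    apply hF'
    rw [IsZero.iff_id_eq_zero] at hz ⊢
    apply X.S.tw.map_injective
    rw [CategoryTheory.Functor.map_id, hz, Functor.map_zero])
  rwa [rk_tw, z_tw] at h1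

end tw

variable {K : Type w} [Field K] [Linear K C]

lemma hv_left_W (D : EnriquesType K C) {Y Z : C} (n : ℤ) (h : HV Y (D.W.obj Z) n) :
    HV (D.W.obj Y) Z n := by
  have h1 : HV Z Y (2 - n) := hv_W' D n h
  have h2 : HV Z (D.W.obj (D.W.obj Y)) (2 - n) := h1.of_iso_right (D.sq.app Y)
  have h3 := hv_W' D (2 - n) h2
  rwa [show (2 : ℤ) - (2 - n) = n by ring] at h3

lemma hv_right_W (D : EnriquesType K C) {Y Z : C} (n : ℤ) (h : HV (D.W.obj Z) Y n) :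
    HV Z (D.W.obj Y) n := by
  have h1 : HV Y (D.W.obj (D.W.obj Z)) (2 - n) := by
    apply hv_W D
    rwa [show (2 : ℤ) - (2 - n) = n by ring]
  have h2 : HV Y Z (2 - n) := h1.of_iso_right (D.sq.app Z).symm
  exact hv_W D n h2

variable [∀ n : ℤ, (shiftFunctor C n).Linear K] {A : Type u₁} [Category.{v₁} A] [Abelian A]

/-- decomposition of the objects `≤ 0` -/
theorem decomp [IsTriangulated C] (X : Unnodal (C := C) K A) (h : Fin 10 → ℤ)
    (hamp : h ∈ X.Ample) (m : ℤ) (Y : C) (hY : X.S.t.IsLE Y 0) :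
    ∃ (U F : C) (f : U ⟶ Y) (g : Y ⟶ F) (δ : F ⟶ U⟦(1 : ℤ)⟧),
      Triangle.mk f g δ ∈ distTriang C ∧ X.S.t.IsLE U 0 ∧
      (∃ F₀ : A, FreeCl X.r (X.z h m) F₀ ∧ F = X.S.ι.obj F₀) ∧
      (∀ F₀ : A, FreeCl X.r (X.z h m) F₀ → ∀ h : U ⟶ X.S.ι.obj F₀, h = 0) := by
  have hheart : ∀ E : A, X.S.t.heart (X.S.ι.obj E) := fun E =>
    (X.S.heart_iff _).2 ⟨E, ⟨Iso.refl _⟩⟩
  have hle : ∀ E : A, X.S.t.IsLE (X.S.ι.obj E) 0 := fun E =>
    ((X.S.t.mem_heart_iff _).1 (hheart E)).1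
  have hge : ∀ E : A, X.S.t.IsGE (X.S.ι.obj E) 0 := fun E =>
    ((X.S.t.mem_heart_iff _).1 (hheart E)).2
  have hH : X.S.t.heart ((X.S.t.truncGE 0).obj Y) := by
    rw [X.S.t.mem_heart_iff]
    exact ⟨inferInstance, inferInstance⟩
  obtain ⟨E, ⟨e⟩⟩ := (X.S.heart_iff _).1 hH
  obtain ⟨T, F, i, q, w, hS, hT, hF⟩ := torsion_pair X.S.noeth X.r (X.z h m)
    (fun S hS => by
      obtain ⟨δ, hδ⟩ := X.S.exact S hS
      exact X.N.rk_add _ hδ)
    (fun S hS => by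
      obtain ⟨δ, hδ⟩ := X.S.exact S hS
      have h1 := X.N.rk_add _ hδ
      have h2 := X.N.c₁_add _ hδ
      change X.N.rk (X.S.ι.obj S.X₂) = X.N.rk (X.S.ι.obj S.X₁) + X.N.rk (X.S.ι.obj S.X₃) at h1
      change X.N.c₁ (X.S.ι.obj S.X₂) = X.N.c₁ (X.S.ι.obj S.X₁) + X.N.c₁ (X.S.ι.obj S.X₃) at h2
      unfold Unnodal.z
      rw [h1, h2, map_add]
      ring)
    X.rk_nonneg
    (fun E hE => by
      have h1 := X.deg_nonneg h hamp E hE
      unfold Unnodal.r at hE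
      unfold Unnodal.z
      rw [hE]
      simpa using h1) E
  obtain ⟨δ', h23⟩ := X.S.exact _ hS
  change Triangle.mk (X.S.ι.map i) (X.S.ι.map q) δ' ∈ distTriang C at h23
  have h12 : Triangle.mk ((X.S.t.truncLTι 0).app Y) ((X.S.t.truncGEπ 0).app Y ≫ e.inv)
      (e.hom ≫ (X.S.t.truncGEδLT 0).app Y) ∈ distTriang C := by
    refine isomorphic_distinguished _ (X.S.t.triangleLTGE_distinguished 0 Y) _
      (Triangle.isoMk _ _ (Iso.refl _) (Iso.refl _) e ?_ ?_ ?_)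
    · change (X.S.t.truncLTι 0).app Y ≫ 𝟙 _ = 𝟙 _ ≫ (X.S.t.truncLTι 0).app Y
      rw [Category.comp_id, Category.id_comp]
    · change ((X.S.t.truncGEπ 0).app Y ≫ e.inv) ≫ e.hom = 𝟙 _ ≫ (X.S.t.truncGEπ 0).app Y
      rw [Category.assoc, Iso.inv_hom_id, Category.comp_id, Category.id_comp]
    · change (e.hom ≫ (X.S.t.truncGEδLT 0).app Y) ≫ (𝟙 ((X.S.t.truncLT 0).obj Y))⟦(1 : ℤ)⟧' =
        e.hom ≫ (X.S.t.truncGEδLT 0).app Y
      rw [CategoryTheory.Functor.map_id]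
      exact Category.comp_id _
  obtain ⟨U, f, δ, h13⟩ := distinguished_cocone_triangle₁
    (((X.S.t.truncGEπ 0).app Y ≫ e.inv) ≫ X.S.ι.map q)
  have oct := someOctahedron' rfl h12 h23 h13
  have hmem := oct.mem
  have hlt : X.S.t.IsLE ((X.S.t.truncLT 0).obj Y) (-1) := X.S.t.isLE_truncLT_obj Y 0 (-1)
  have hlt0 : X.S.t.IsLE ((X.S.t.truncLT 0).obj Y) 0 :=
    X.S.t.isLE_of_le _ (-1) 0 (by norm_num)
  refine ⟨U, X.S.ι.obj F, f, _, δ, h13, ?_, ⟨F, hF, rfl⟩, ?_⟩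
  · exact X.S.t.isLE₂ _ hmem 0 hlt0 (hle T)
  · intro F₀ hF₀ φ
    have key : ∀ g : (X.S.t.truncLT 0).obj Y ⟶ X.S.ι.obj F₀, g = 0 := fun g =>
      X.S.t.zero_of_isLE_of_isGE g (-1) 0 (by norm_num) hlt (hge F₀)
    have h1 : oct.m₁ ≫ φ = 0 := key _
    obtain ⟨ψ, hψ⟩ := Triangle.yoneda_exact₂ _ hmem φ h1
    change X.S.ι.obj T ⟶ X.S.ι.obj F₀ at ψ
    have h2 : ψ = 0 := by
      obtain ⟨χ, rfl⟩ := X.S.ι.map_surjective ψ
      rw [tor_free_zero X.r (X.z h m) hT hF₀ χ, Functor.map_zero]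
    rw [hψ, h2]
    exact comp_zero

/-- G6, with the statement of G3 as a hypothesis -/
theorem good_of_unnodal_aux [IsTriangulated C] (X : Unnodal (C := C) K A)
    (hsimple : ∀ (h : Fin 10 → ℤ), h ∈ X.Ample → ∀ (m : ℤ) (t' : TStructure C),
      (∀ Y n, t'.IsLE Y n ↔ X.S.t.IsLE Y n ∧
        ∀ F : A, FreeCl X.r (X.z h m) F → HV Y (X.S.ι.obj F) (-n)) →
      ∀ L : A, X.IsLine L → X.z h m L = 0 → Smp t' (X.S.ι.obj L) 1)
    (D : EnriquesType K C)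
    (hD : D.W = X.D.W) (L : Fin 10 → A) (hL : ∀ k, X.IsLine (L k))
    (hexc : IsExcOrth K (fun k => X.S.ι.obj (L k))) :
    ∃ t : TStructure C, Good D (fun k => X.S.ι.obj (L k)) t (fun _ => 1) := by
  have hheart : ∀ E : A, X.S.t.heart (X.S.ι.obj E) := fun E =>
    (X.S.heart_iff _).2 ⟨E, ⟨Iso.refl _⟩⟩
  have hge : ∀ E : A, X.S.t.IsGE (X.S.ι.obj E) 0 := fun E =>
    ((X.S.t.mem_heart_iff _).1 (hheart E)).2
  obtain ⟨h0, hpos, hEq⟩ := lattice X.N.inter X.N.symm X.N.hodge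
    (fun k => X.N.c₁ (X.S.ι.obj (L k))) (fun i j hij => sq_diff X L hL hexc i j hij)
  obtain ⟨h, hamp, hEq'⟩ : ∃ h ∈ X.Ample, ∀ i, X.N.inter h (X.N.c₁ (X.S.ι.obj (L i))) =
      X.N.inter h (X.N.c₁ (X.S.ι.obj (L 0))) := by
    rcases X.unnodal h0 hpos with ha | ha
    · exact ⟨h0, ha, hEq⟩
    · refine ⟨-h0, ha, fun i => ?_⟩
      have := hEq i
      rw [map_neg, LinearMap.neg_apply, LinearMap.neg_apply, this]
  let m : ℤ := X.N.inter h (X.N.c₁ (X.S.ι.obj (L 0)))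
  have hz : ∀ k, X.z h m (L k) = 0 := by
    intro k
    unfold Unnodal.z
    rw [hEq' k, (hL k).rk_one]
    simp [m]
  let Fr : C → Prop := fun Y => ∃ F : A, FreeCl X.r (X.z h m) F ∧ Y = X.S.ι.obj F
  obtain ⟨t', ht⟩ := tilt_gen X.S.t Fr
    (by
      rintro Y ⟨F, hF, rfl⟩
      exact hge F)
    (by
      intro Y hY
      obtain ⟨U, F, f, g, δ, hT, hU, ⟨F₀, hF₀, hFe⟩, hv⟩ := decomp X h hamp m Y hY
      refine ⟨U, F, f, g, δ, hT, hU, ?_, ?_, ?_⟩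
      · rw [hFe]; exact hge F₀
      · rintro F' ⟨F₁, hF₁, rfl⟩ φ
        exact hv F₁ hF₁ φ
      · intro U' _ hU' φ
        exact hU' F ⟨F₀, hF₀, hFe⟩ φ)
  have ht' : ∀ Y n, t'.IsLE Y n ↔ X.S.t.IsLE Y n ∧
      ∀ F : A, FreeCl X.r (X.z h m) F → HV Y (X.S.ι.obj F) (-n) := by
    intro Y n
    rw [ht]
    constructor
    · rintro ⟨h1, h2⟩
      exact ⟨h1, fun F hF => h2 _ ⟨F, hF, rfl⟩⟩
    · rintro ⟨h1, h2⟩
      refine ⟨h1, ?_⟩
      rintro F' ⟨F, hF, rfl⟩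
      exact h2 F hF
  have hWle : ∀ Y n, t'.IsLE Y n → t'.IsLE (D.W.obj Y) n := by
    intro Y n hY
    obtain ⟨h1, h2⟩ := (ht' Y n).1 hY
    refine (ht' _ _).2 ⟨?_, fun F hF => ?_⟩
    · rw [hD]; exact X.S.Wle Y n h1
    · apply hv_left_W D
      rw [hD]
      exact (h2 _ (freeCl_tw X h m hF)).of_iso_right (X.S.twι.app F).symm
  refine ⟨t', ?_, hWle, ?_, ?_, ?_⟩
  · intro Y
    obtain ⟨⟨l, hl⟩, ⟨r, hr⟩⟩ := X.S.bdd Y
    refine ⟨⟨l, ?_⟩, ⟨r + 1, ?_⟩⟩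
    · rw [t'.isGE_iff_orthogonal (l - 1) l (by ring)]
      intro Z f hZ
      have hZ' := ((ht' _ _).1 hZ).1
      exact X.S.t.zero f (l - 1) l (by omega)
    · exact (ht' _ _).2 ⟨X.S.t.isLE_of_le Y r (r + 1) (by omega), fun F hF =>
        van_low X.S.t r 0 (-(r + 1)) hr (hge F) (by omega)⟩
  · intro Y n hY
    rw [t'.isGE_iff_orthogonal (n - 1) n (by ring)]
    intro Z f hZ
    have h1 := hWle Z (n - 1) hZ
    have h2 : HV (D.W.obj Z) Y 0 := hv_zero fun g => t'.zero g (n - 1) n (by omega)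
    exact hv_zero' (hv_right_W D 0 h2) f
  · intro k
    exact hsimple h hamp m t' ht' (L k) (hL k) (hz k)
  · intro k
    have h1 := hsimple h hamp m t' ht' (X.S.tw.obj (L k)) (isLine_tw X (L k) (hL k))
      (by rw [z_tw, hz k])
    have e : X.S.ι.obj (X.S.tw.obj (L k)) ≅ X.D.W.obj (X.S.ι.obj (L k)) := X.S.twι.app (L k)
    rw [hD]
    exact smp_iso h1 e

end Pool.Agent.Helper20.KU
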